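import Mathlib
import Pool.Agent.Lib.helper23.MinB

set_option autoImplicit false

namespace Pool.Agent.H.MP_a4feb0_gt.A

open Set Filter Topology Function

abbrev R := ℤ_[3]
abbrev C := ℚ_[3] ⧸ (1 : Submodule R ℚ_[3])

lemma nb (x : C) : ∀ᶠ r in 𝓝 (0 : R), r • x = 0 := by
  obtain ⟨q, rfl⟩ := Submodule.Quotient.mk_surjective _ x
  filter_upwards [((continuous_subtype_val.mul (continuous_const (y := q))).norm.tendsto' (0 : R) 0
    (by simp)).eventually (ge_mem_nhds one_pos)] with r hr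
  exact (Submodule.Quotient.mk_smul _ _ _).symm.trans ((Submodule.Quotient.mk_eq_zero _).2
    (Submodule.mem_one.2 ⟨⟨_, hr⟩, rfl⟩))

lemma t3 : Tendsto (fun k : ℕ => (3 : R) ^ k) atTop (𝓝 0) :=
  tendsto_pow_atTop_nhds_zero_of_norm_lt_one (by
    simpa using (PadicInt.norm_lt_one_iff_dvd (p := 3) ((3 : ℕ) : R)).2 dvd_rfl)

lemma ns {M : Type} [AddCommGroup M] [Module R M] (k : ℕ) (x : M) :
    (3 : R) ^ k • x = (3 ^ k : ℕ) • x := by
  rw [← Nat.cast_smul_eq_nsmul R]; simp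

lemma cA (x : C) : ∀ᶠ k in atTop, (3 ^ k : ℕ) • x = 0 :=
  (t3.eventually (nb x)).mono fun k hk => ns k x ▸ hk

lemma vA (w : C × C) : ∀ᶠ k in atTop, (3 ^ k : ℕ) • w = 0 :=
  ((cA w.1).and (cA w.2)).mono fun _ h => Prod.ext h.1 h.2

lemma cF (k : ℕ) : {x : C | (3 ^ k : ℕ) • x = 0}.Finite := by
  refine ((finite_Iio (3 ^ k)).image fun n : ℕ =>
    (Submodule.Quotient.mk (n / 3 ^ k : ℚ_[3]) : C)).subset fun x hx => ?_
  obtain ⟨q, rfl⟩ := Submodule.Quotient.mk_surjective _ x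
  obtain ⟨y, hy⟩ := Submodule.mem_one.1 ((Submodule.Quotient.mk_eq_zero _).1
    ((Submodule.Quotient.mk_smul _ _ _).trans hx))
  obtain ⟨z, hz⟩ := Ideal.mem_span_singleton'.1 (PadicInt.appr_spec k y)
  refine ⟨y.appr k, PadicInt.appr_lt y k, (Submodule.Quotient.eq _).2
    (Submodule.mem_one.2 ⟨-z, ?_⟩)⟩
  have := congrArg (algebraMap R ℚ_[3]) hz
  simp only [map_mul, map_pow, map_sub, map_natCast, hy, nsmul_eq_mul] at this
  push_cast at this
  rw [map_neg]
  field_simp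
  linear_combination -this

lemma vF (k : ℕ) : {w : C × C | (3 ^ k : ℕ) • w = 0}.Finite :=
  ((cF k).prod (cF k)).subset fun _ h => ⟨congrArg Prod.fst h, congrArg Prod.snd h⟩

instance : Countable C := countable_univ_iff.1
  ((countable_iUnion fun k => (cF k).countable).mono fun x _ => mem_iUnion.2 (cA x).exists)

lemma cD {r : R} (h : r ≠ 0) (x : C) : ∃ y : C, r • y = x := by
  obtain ⟨q, rfl⟩ := Submodule.Quotient.mk_surjective _ x
  refine ⟨Submodule.Quotient.mk ((r : ℚ_[3])⁻¹ * q), ?_⟩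
  rw [← Submodule.Quotient.mk_smul]
  congr 1
  exact mul_inv_cancel_left₀ (PadicInt.coe_ne_zero.2 h) q

noncomputable def c : C := Submodule.Quotient.mk 3⁻¹

lemma c3 : (3 : R) • c = 0 := (Submodule.Quotient.mk_smul _ _ _).symm.trans
  ((Submodule.Quotient.mk_eq_zero _).2 (Submodule.mem_one.2 ⟨1, by
    rw [Algebra.smul_def, map_ofNat]; simp⟩))

lemma c0 : c ≠ 0 := fun h => by
  obtain ⟨y, hy⟩ := Submodule.mem_one.1 ((Submodule.Quotient.mk_eq_zero _).1 h)
  have := y.2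
  rw [show y.1 = ((3 : ℕ) : ℚ_[3])⁻¹ by simpa using hy, norm_inv, Padic.norm_p] at this
  norm_num at this

lemma un {r : R} (h : r • c = c) : IsUnit r := by
  by_contra k
  obtain ⟨s, rfl⟩ := (PadicInt.norm_lt_one_iff_dvd r).1 (PadicInt.not_isUnit_iff.1 k)
  exact c0 (by rw [← h, mul_comm, mul_smul, Nat.cast_ofNat, c3, smul_zero])

lemma unc : Uncountable R := not_countable_iff.1 fun _ => by
  obtain ⟨x, y, hy⟩ := nonempty_interior_of_iUnion_of_closed (f := fun x : R => {x})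
    (fun _ => isClosed_singleton) (iUnion_of_singleton _)
  obtain ⟨k, hk⟩ := ((t3.const_add y).eventually (by
    rw [add_zero]; exact mem_interior_iff_mem_nhds.1 hy : ∀ᶠ z in 𝓝 (y + 0), z = x)).exists
  rw [← mem_singleton_iff.1 (interior_subset hy)] at hk
  simp at hk

lemma FS (L : AddSubgroup (C × C)) (m : ℕ) : ∃ T : Set (C × C), T.Finite ∧
    ∀ w, (3 ^ m : ℕ) • w ∈ L → ∃ t ∈ T, w - t ∈ L := by
  let Q := L ⧸ (nsmulAddMonoidHom (3 ^ m) : L →+ L).range
  haveI : Finite Q := by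
    by_contra h
    haveI := not_finite_iff_infinite.1 h
    obtain ⟨Y, hY⟩ := Infinite.exists_subset_card_eq Q
      (Nat.card {w : C × C | (3 ^ m : ℕ) • w = 0} + 1)
    obtain ⟨k, hk⟩ := ((eventually_all_finset Y).2 fun y _ => vA (Quotient.out y).1).exists
    let L0 := (nsmulAddMonoidHom (3 ^ k) : L →+ L).ker
    haveI : Finite L0 := by
      haveI := (vF k).to_subtype
      exact Finite.of_injective (fun x : L0 => (⟨x.1.1, congrArg Subtype.val x.2⟩ :
        {w : C × C | (3 ^ k : ℕ) • w = 0})) fun x y e => Subtype.ext (Subtype.ext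
          (Subtype.mk.inj e))
    let f0 := (nsmulAddMonoidHom (3 ^ m) : L0 →+ L0)
    haveI := (vF m).to_subtype
    have h1 := Nat.card_le_card_of_injective (fun x : f0.ker => (⟨x.1.1.1, congrArg (fun y : L0 => y.1.1) x.2⟩ :
      {w : C × C | (3 ^ m : ℕ) • w = 0})) fun x y e => Subtype.ext (Subtype.ext (Subtype.ext
          (Subtype.mk.inj e)))
    have h2 := Nat.card_le_card_of_injective (fun y : Y => ((⟨Quotient.out y.1, Subtype.ext
      (hk y y.2)⟩ : L0) : L0 ⧸ f0.range)) fun x y e => Subtype.ext (by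
        obtain ⟨l, hl⟩ := QuotientAddGroup.eq.1 e
        rw [← Quotient.out_eq x.1, ← Quotient.out_eq y.1]
        exact QuotientAddGroup.eq.2 ⟨l.1, congrArg Subtype.val hl⟩)
    rw [← AddSubgroup.index_range] at h1
    rw [Nat.card_eq_fintype_card, Fintype.card_coe, hY] at h2
    exact Nat.not_succ_le_self _ (h2.trans h1)
  refine ⟨⋃ q : Q, {w | (3 ^ m : ℕ) • w = (Quotient.out q).1}, finite_iUnion fun q => ?_,
    fun w hw => ?_⟩
  · rcases eq_empty_or_nonempty {w | (3 ^ m : ℕ) • w = (Quotient.out q).1} with h | ⟨u, h⟩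
    · simp [h]
    · exact ((vF m).image (· + u)).subset fun w hw => ⟨w - u, by
        rw [mem_ofPred_eq, smul_sub, hw, h, sub_self], sub_add_cancel _ _⟩
  · obtain ⟨⟨_, l, rfl⟩, h⟩ := QuotientAddGroup.mk_out_eq_add
      (nsmulAddMonoidHom (3 ^ m) : L →+ L).range ⟨_, hw⟩
    exact ⟨w + l, mem_iUnion.2 ⟨_, (smul_add _ _ _).trans (congrArg Subtype.val h).symm⟩, by simp⟩

end Pool.Agent.H.MP_a4feb0_gt.A
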