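import Mathlib
import Pool.Agent.H.MP_a4feb0_gt.A

set_option autoImplicit false

namespace Pool.Agent.H.MP_a4feb0_gt.B

open Set Filter Topology Function Pool.Agent.H.MP_a4feb0_gt.A

noncomputable def lam (μ : R) : C × C →ₗ[R] C := μ • LinearMap.fst R C C + LinearMap.snd R C C

def Rel (b : R → C → ZMod 2) : Prop := ∀ μ x, b μ x + b μ (x + c) + b μ (x - c) = 0

@[ext] structure G where
  a : R → C → ZMod 2
  v : C × C
  κ : Rˣ
  hf : {μ | a μ ≠ 0}.Finite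
  ha : Rel a
  hκ : κ • c = c

noncomputable instance : Mul G := ⟨fun g h =>
  ⟨fun μ x => h.a μ x + g.a μ (h.κ • x + lam μ h.v), g.v + g.κ • h.v, g.κ * h.κ,
    (h.hf.union g.hf).subset fun μ hμ => by
      by_contra! k
      simp only [mem_union, mem_ofPred_eq, not_or, not_not] at k
      exact hμ (funext fun x => by simp [k.1, k.2]),
    fun μ x => by
      dsimp only
      rw [smul_add, smul_sub, h.hκ, add_right_comm _ c, sub_add_eq_add_sub]
      linear_combination h.ha μ x + g.ha μ (h.κ • x + lam μ h.v),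
    by rw [mul_smul, h.hκ, g.hκ]⟩⟩
noncomputable instance : One G := ⟨⟨0, 0, 1, by simp, fun _ _ => by simp, one_smul _ _⟩⟩
noncomputable instance : Inv G := ⟨fun g =>
  ⟨fun μ x => g.a μ (g.κ⁻¹ • x - g.κ⁻¹ • lam μ g.v), -(g.κ⁻¹ • g.v), g.κ⁻¹,
    g.hf.subset fun μ hμ k => hμ (funext fun x => by simp [k]),
    fun μ x => by
      dsimp only
      rw [smul_add, smul_sub, inv_smul_eq_iff.2 g.hκ.symm, add_sub_right_comm, sub_right_comm _ c]
      exact g.ha _ _,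
    inv_smul_eq_iff.2 g.hκ.symm⟩⟩

@[simp] lemma ma (g h : G) (μ x) : (g * h).a μ x = h.a μ x + g.a μ (h.κ • x + lam μ h.v) := rfl
@[simp] lemma mv (g h : G) : (g * h).v = g.v + g.κ • h.v := rfl
@[simp] lemma mκ (g h : G) : (g * h).κ = g.κ * h.κ := rfl
@[simp] lemma oa : (1 : G).a = 0 := rfl
@[simp] lemma ov : (1 : G).v = 0 := rfl
@[simp] lemma oκ : (1 : G).κ = 1 := rfl
@[simp] lemma ia (g : G) (μ x) : g⁻¹.a μ x = g.a μ (g.κ⁻¹ • x - g.κ⁻¹ • lam μ g.v) := rfl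
@[simp] lemma iv (g : G) : g⁻¹.v = -(g.κ⁻¹ • g.v) := rfl
@[simp] lemma iκ (g : G) : g⁻¹.κ = g.κ⁻¹ := rfl

lemma ex {g h : G} (h1 : ∀ μ x, g.a μ x = h.a μ x) (h2 : g.v = h.v) (h3 : g.κ = h.κ) : g = h :=
  G.ext (funext₂ h1) h2 h3

noncomputable instance : Group G := Group.ofLeftAxioms
  (fun g h k => ex (fun μ x => by simp [add_assoc, mul_smul, add_comm (lam μ h.v)]) (by simp [add_assoc, mul_smul])
    (mul_assoc _ _ _))
  (fun g => ex (by simp) (by simp) (by simp))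
  fun g => ex (fun μ x => by simp [CharTwo.add_self_eq_zero]) (by simp) (by simp)

noncomputable def ι (w : C × C) : G := ⟨0, w, 1, by simp, fun _ _ => by simp, one_smul _ _⟩
noncomputable def k (κ : Rˣ) (h : κ • c = c) : G := ⟨0, 0, κ, by simp, fun _ _ => by simp, h⟩
open Classical in
noncomputable def res {b : R → C → ZMod 2} (h : Rel b) (F : Finset R) : G :=
  ⟨fun μ => if μ ∈ F then b μ else 0, 0, 1, F.finite_toSet.subset fun μ hμ => by
    by_contra k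
    exact hμ (if_neg k), fun μ x => by dsimp only; split_ifs; exacts [h μ x, by simp], one_smul _ _⟩
noncomputable def e (w : C × C) (g : G) : G := g * (ι w * g * (ι w)⁻¹) * ((ι w)⁻¹ * g * ι w)

lemma ea (w) {g : G} (h : g.v = 0 ∧ g.κ = 1) : ((e w g).v = 0 ∧ (e w g).κ = 1) ∧
    ∀ μ x, (e w g).a μ x = g.a μ x + g.a μ (x + lam μ w) + g.a μ (x - lam μ w) := by
  refine ⟨by simp [e, ι, h], fun μ x => ?_⟩
  simp [e, ι, h, sub_eq_add_neg]
  ring

lemma sq {g : G} (h : g.v = 0 ∧ g.κ = 1) : g * g = 1 :=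
  ex (by simp [h, CharTwo.add_self_eq_zero]) (by simp [h]) (by simp [h])

def Nb (F : Finset (R × C)) : Set G :=
  {g | g.v = 0 ∧ ∀ p ∈ F, g.κ • p.2 = p.2 ∧ g.a p.1 p.2 = 0}

def P : Filter G where
  sets := {U | ∃ F, Nb F ⊆ U}
  univ_sets := ⟨∅, subset_univ _⟩
  sets_of_superset := fun ⟨S, h⟩ k => ⟨S, h.trans k⟩
  inter_sets := fun ⟨S, h⟩ ⟨T, k⟩ => by
    classical
    exact ⟨S ∪ T, fun e he => ⟨h ⟨he.1, fun f hf => he.2 f (Finset.mem_union_left _ hf)⟩,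
      k ⟨he.1, fun f hf => he.2 f (Finset.mem_union_right _ hf)⟩⟩⟩

lemma toP {α : Type} {l : Filter α} {u : α → G} : Tendsto u l P ↔ (∀ᶠ i in l, (u i).v = 0) ∧
    (∀ x : C, ∀ᶠ i in l, (u i).κ • x = x) ∧ ∀ μ x, ∀ᶠ i in l, (u i).a μ x = 0 := by
  refine ⟨fun h => ?_, fun ⟨h1, h2, h3⟩ U ⟨F, hF⟩ => mem_map.2 (mem_of_superset (h1.and
    ((eventually_all_finset F).2 fun p _ => (h2 p.2).and (h3 p.1 p.2))) fun i hi => hF hi)⟩
  have this (μ x) : ∀ᶠ i in l, u i ∈ Nb {(μ, x)} := h ⟨_, subset_rfl⟩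
  exact ⟨(this 0 0).mono fun i hi => hi.1, fun x => (this 0 x).mono fun i hi =>
    (hi.2 _ (Finset.mem_singleton_self _)).1, fun μ x => (this μ x).mono fun i hi =>
      (hi.2 _ (Finset.mem_singleton_self _)).2⟩

lemma top : ∃ τ : TopologicalSpace G, IsTopologicalGroup G ∧ 𝓝 (1 : G) = P := by
  obtain ⟨a1, a2, a3⟩ := toP.1 (tendsto_id (x := P))
  obtain ⟨b1, b2, b3⟩ := toP.1 (tendsto_fst (f := P) (g := P))
  obtain ⟨d1, d2, d3⟩ := toP.1 (tendsto_snd (f := P) (g := P))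
  refine Pool.Agent.Lib.helper23.MinB.ofFilter P (fun U ⟨F, h⟩ => h (by simp [Nb]))
    (toP.2 ⟨?_, fun x => ?_, fun μ x => ?_⟩) (toP.2 ⟨?_, fun x => ?_, fun μ x => ?_⟩)
    fun g => toP.2 ⟨?_, fun x => ?_, fun μ x => ?_⟩
  · filter_upwards [b1, d1] with p h1 h2 using by simp [h1, h2]
  · filter_upwards [b2 x, d2 x] with p h1 h2 using by simp [mul_smul, h1, h2]
  · filter_upwards [b3 μ x, d3 μ x, d2 x, d1] with p h1 h2 h3 h4 using by simp [h1, h2, h3, h4]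
  · filter_upwards [a1] with p (h1 : p.v = 0) using by simp [h1]
  · filter_upwards [a2 x] with p (h1 : p.κ • x = x) using inv_smul_eq_iff.2 h1.symm
  · filter_upwards [a1, a2 x, a3 μ x] with p (h1 : p.v = 0) (h2 : p.κ • x = x) (h3 : p.a μ x = 0)
      using by simp [h1, inv_smul_eq_iff.2 h2.symm, h3]
  · filter_upwards [a1, a2 g.v.1, a2 g.v.2] with p (h1 : p.v = 0) h2 h3
    simp [h1, smul_smul, show p.κ • g.v = g.v from Prod.ext h2 h3]
  · filter_upwards [a2 x] with p (h1 : p.κ • x = x) using by simp [h1]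
  · filter_upwards [a1, a2 (g.κ⁻¹ • x - g.κ⁻¹ • lam μ g.v), a3 μ (g.κ⁻¹ • x - g.κ⁻¹ • lam μ g.v)]
      with p (h1 : p.v = 0) (h2 : p.κ • _ = _) (h3 : p.a μ _ = 0)
    simp [h1, ← sub_eq_add_neg, h2, h3, CharTwo.add_self_eq_zero]

end Pool.Agent.H.MP_a4feb0_gt.B
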