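import Mathlib
import Pool.Agent.H.MP_a4feb0_gt.B

set_option autoImplicit false

namespace Pool.Agent.H.MP_a4feb0_gt.C

open Set Filter Topology Function Pool.Agent.H.MP_a4feb0_gt.A Pool.Agent.H.MP_a4feb0_gt.B

lemma ιa (w u : C × C) : ι (w + u) = ι w * ι u := ex (by simp [ι]) (by simp [ι]) (by simp [ι])
lemma ι0 : ι 0 = 1 := rfl
lemma ιn (n : ℕ) (w : C × C) : ι (n • w) = ι w ^ n := by
  induction n with
  | zero => simp [ι0]
  | succ n ih => rw [succ_nsmul, ιa, ih, pow_succ]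

variable {H : Type} [Group H] (f : G →* H)

lemma kill {b : R → C → ZMod 2} (hb : Rel b) (h : ∀ μ, f (res hb {μ}) = 1) (F : Finset R) :
    f (res hb F) = 1 := by
  classical
  induction F using Finset.induction_on with
  | empty => exact (congrArg f (ex (by simp [res]) rfl rfl)).trans f.map_one
  | insert μ F hμ ih =>
    rw [show res hb (insert μ F) = res hb {μ} * res hb F from ex (fun ν x => by
      by_cases e : ν = μ <;> simp [res, e, hμ]) (by simp [res]) (by simp [res]), map_mul, h, ih,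
      mul_one]

lemma killA (h : ∀ w, f (ι w) = 1) {g : G} (hg : g.v = 0 ∧ g.κ = 1) : f g = 1 := by
  rw [show g = res g.ha g.hf.toFinset from ex (fun μ x => by
    by_cases e : g.a μ = 0 <;> simp [res, e]) hg.1 hg.2]
  refine kill f _ (fun μ => ?_) _
  obtain ⟨⟨a1, a2⟩, a3⟩ := ea (0, c) (g := res g.ha {μ}) ⟨rfl, rfl⟩
  have := congrArg f (ex (h := 1) (fun ν x => (a3 ν x).trans (by
    simpa [lam] using (res g.ha {μ}).ha ν x)) a1 a2)
  simp only [e, map_mul, map_inv, h, one_mul, inv_one, mul_one, map_one] at this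
  rwa [← map_mul, B.sq ⟨rfl, rfl⟩, map_one, one_mul] at this

variable [TopologicalSpace H] [IsTopologicalGroup H]

lemma eps {l : Filter G} {α : G → G} (hα : ∀ i, (α i).v = 0 ∧ (α i).κ = 1)
    (h : Tendsto (fun i => f (α i)) l (𝓝 1)) (μ : R) (F : Finset R) :
    ∃ β : G → G, (∀ i, ((β i).v = 0 ∧ (β i).κ = 1) ∧ (∀ x, (β i).a μ x = (α i).a μ x) ∧
      ∀ ν ∈ F, ν ≠ μ → ∀ x, (β i).a ν x = 0) ∧ Tendsto (fun i => f (β i)) l (𝓝 1) := by
  classical
  induction F using Finset.induction_on with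
  | empty => exact ⟨α, by simpa using hα, h⟩
  | insert ν F _ ih =>
    obtain ⟨β, b1, b2⟩ := ih
    obtain ⟨u, hu⟩ : ∃ u : C, ν ≠ μ → (ν - μ) • u = c := by
      by_cases e : ν = μ
      · simp [e]
      · simpa [e] using cD (sub_ne_zero.2 e) c
    refine ⟨fun i => e (u, -(μ • u)) (β i), fun i => ?_, ?_⟩
    · obtain ⟨a1, a2⟩ := ea (u, -(μ • u)) (b1 i).1
      refine ⟨a1, fun x => ?_, fun ρ h1 h2 x => ?_⟩
      · simp [a2, lam, CharTwo.add_self_eq_zero, (b1 i).2.1]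
      · rcases Finset.mem_insert.1 h1 with rfl | h1
        · rw [a2, show lam ρ (u, -(μ • u)) = c by
            simp [lam, ← hu h2, sub_smul, sub_eq_add_neg, add_smul]]
          exact (β i).ha _ _
        · simp [a2, (b1 i).2.2 ρ h1 h2]
    · simpa [e] using (b2.mul ((b2.const_mul (f (ι (u, -(μ • u))))).mul_const
        (f (ι (u, -(μ • u))))⁻¹)).mul ((b2.const_mul (f (ι (u, -(μ • u))))⁻¹).mul_const
          (f (ι (u, -(μ • u)))))

variable [T2Space H]

lemma lemS (t : C × C) : ∀ᶠ h in 𝓝 (1 : H), ∀ g : G, g.κ = 1 → f g = h → f (ι g.v) = f (ι t) →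
    f (ι t) = 1 := by
  by_cases ht : f (ι t) = 1
  · simp [ht]
  obtain ⟨k, hk⟩ := (vA t).exists
  obtain ⟨j, hj⟩ : Odd (3 ^ k) := Odd.pow (by decide)
  have : (1 * (f (ι t))⁻¹) * (1 * (f (ι t))⁻¹) ≠ 1 := fun e => ht (by
    have := congrArg f (ιn (3 ^ k) t)
    rw [hk, ι0, map_one, map_pow, hj, pow_succ, pow_mul, pow_two] at this
    rw [one_mul, ← mul_inv_rev, inv_eq_one] at e
    simpa [e] using this.symm)
  filter_upwards [((by fun_prop : Continuous fun h : H => (h * (f (ι t))⁻¹) * (h * (f (ι t))⁻¹)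
    ).tendsto 1).eventually_ne this]
  rintro _ hh g h1 rfl h2
  rw [← h2, ← map_inv, ← map_mul, ← map_mul, B.sq (by simp [ι, h1]), map_one] at hh
  exact (hh rfl).elim

lemma lemD (m : ℕ) : ∀ᶠ h in 𝓝 (1 : H), ∀ g : G, g.κ = 1 → f g = h →
    f (ι ((3 ^ m : ℕ) • g.v)) = 1 → f (ι g.v) = 1 := by
  let L : AddSubgroup (C × C) :=
    { carrier := {w | f (ι w) = 1}
      zero_mem' := f.map_one
      add_mem' := fun {a b} (ha : _ = _) (hb : _ = _) => by simp [ιa, ha, hb]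
      neg_mem' := fun {a} (ha : _ = _) => by
        simpa [ha, ι0, -add_neg_cancel, ιa] using congrArg (fun w => f (ι w)) (add_neg_cancel a) }
  obtain ⟨T, t1, t2⟩ := FS L m
  filter_upwards [(eventually_all_finite t1).2 fun t _ => lemS f t] with h hh g h1 h2 h3
  obtain ⟨t, a1, (a2 : _ = _)⟩ := t2 _ h3
  have : f (ι g.v) = f (ι t) := by rw [← sub_add_cancel g.v t, ιa, map_mul, a2, one_mul]
  exact this.trans (hh t a1 g h1 h2 this)

lemma lemV (hf : Tendsto f P (𝓝 1)) : ∀ᶠ h in 𝓝 (1 : H), ∀ g : G, g.κ = 1 → f g = h →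
    f (ι g.v) = 1 := by
  obtain ⟨W, w1, W', w2, w3⟩ := mem_nhds_prod_iff.1 (((by fun_prop : Continuous fun p : H × H =>
    p.1 * p.2 * p.1⁻¹ * p.2⁻¹).tendsto' (1, 1) 1 (by simp)) (lemD f 1))
  obtain ⟨F, hF⟩ := hf w1
  obtain ⟨m, hm⟩ := eventually_atTop.1 ((cA c).and ((eventually_all_finset F).2 fun p _ => cA p.2))
  filter_upwards [w2, lemD f m]
  rintro _ h1 h2 g h3 rfl
  refine h2 g h3 rfl ?_
  have st (j) : f (ι ((3 ^ (m + j) : ℕ) • g.v)) = 1 → f (ι ((3 ^ m : ℕ) • g.v)) = 1 := by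
    induction j with
    | zero => exact id
    | succ j ih =>
      refine fun h => ih ?_
      have a0 (x : C) (hx : (3 ^ (m + j) : ℕ) • x = 0) : (1 + 3 ^ (m + j) : R) • x = x := by
        rw [add_smul, ns, hx, one_smul, add_zero]
      have a1 := a0 c (hm _ le_self_add).1
      have a2 : (k (un a1).unit a1 * g * (k (un a1).unit a1)⁻¹ * g⁻¹).v =
          (3 ^ (m + j) : ℕ) • g.v := by
        simp [k, h3, Units.smul_def, add_smul, ns]
      rw [← a2]
      refine w3 (mk_mem_prod (hF (a := k (un a1).unit a1) ⟨rfl, fun p hp =>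
        ⟨a0 _ ((hm _ le_self_add).2 p hp), rfl⟩⟩) h1) _ (by simp [h3]) (by simp) ?_
      rwa [a2, smul_smul, ← pow_add, add_comm 1]
  obtain ⟨j, hj⟩ := eventually_atTop.1 (vA g.v)
  exact st j (by rw [hj _ le_add_self, ι0, map_one])

lemma lemA (hf : Tendsto f P (𝓝 1)) (𝒰 : Ultrafilter G) {α : G → G}
    (hα : ∀ i, (α i).v = 0 ∧ (α i).κ = 1) (h : Tendsto (fun i => f (α i)) 𝒰 (𝓝 1))
    (F : Finset (R × C)) : ∃ y : G, f y = 1 ∧ ∀ᶠ i in 𝒰, α i * y ∈ Nb F := by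
  classical
  choose b hb using fun μ x => 𝒰.eventually_exists_iff.1
    (Eventually.of_forall fun i => (⟨_, rfl⟩ : ∃ z, (α i).a μ x = z))
  have hr : Rel b := fun μ x => by
    obtain ⟨i, h1, h2, h3⟩ := ((hb μ x).and ((hb μ (x + c)).and (hb μ (x - c)))).exists
    exact h1 ▸ h2 ▸ h3 ▸ (α i).ha μ x
  refine ⟨res hr (F.image Prod.fst), kill f hr (fun μ => ?_) _, ?_⟩
  · by_contra hn
    obtain ⟨W, w1, W', w2, w3⟩ := mem_nhds_prod_iff.1 (((by fun_prop : Continuous fun p : H × H =>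
      p.1⁻¹ * p.2).tendsto' (1, 1) 1 (by simp)).eventually_ne (Ne.symm hn))
    obtain ⟨E, hE⟩ := hf w2
    obtain ⟨β, b1, b2⟩ := eps f hα h μ (E.image Prod.fst)
    obtain ⟨i, h1, h2⟩ := ((b2.eventually w1).and
      ((eventually_all_finset E).2 fun p _ => hb μ p.2)).exists
    refine w3 (mk_mem_prod h1 (hE (a := β i * res hr {μ}) ⟨by simp [res, (b1 i).1],
      fun p hp => ⟨by simp [res, (b1 i).1], ?_⟩⟩)) (by simp)
    by_cases e : p.1 = μ
    · simp [res, e, (b1 i).2.1, h2 p hp, CharTwo.add_self_eq_zero]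
    · simp [res, e, (b1 i).2.2 _ (Finset.mem_image_of_mem _ hp) e]
  · filter_upwards [(eventually_all_finset F).2 fun p _ => hb p.1 p.2] with i hi
    refine ⟨by simp [res, hα], fun p hp => ⟨by simp [res, hα], ?_⟩⟩
    simp [res, Finset.mem_image_of_mem _ hp, hi p hp, CharTwo.add_self_eq_zero, -Finset.mem_image]

theorem opn (hf : Tendsto f P (𝓝 1)) (hs : Surjective f) : 𝓝 1 ≤ map f P := by
  classical
  rw [← map_comap_of_surjective hs (𝓝 1)]
  rintro S ⟨F, hF⟩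
  refine mem_map.2 (mem_iff_ultrafilter.2 fun 𝒰 h => ?_)
  replace h : Tendsto f 𝒰 (𝓝 1) := tendsto_iff_comap.2 h
  obtain ⟨r, -, hr⟩ := isCompact_univ.ultrafilter_le_nhds (𝒰.map fun g : G => (g.κ : R)) (by simp)
  have r1 (x : C) : ∀ᶠ g : G in 𝒰, g.κ • x = r • x := by
    filter_upwards [(((continuous_sub_right r).tendsto' r 0 (sub_self r)).comp hr).eventually (nb x)]
      with g hg using sub_eq_zero.1 ((sub_smul _ _ _).symm.trans hg)
  have r2 : r • c = c := by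
    obtain ⟨g, hg⟩ := (r1 c).exists
    exact hg ▸ g.hκ
  let z := k (un r2).unit r2
  have z1 : Tendsto (fun g : G => k g.κ g.hκ * z⁻¹) 𝒰 P := toP.2 ⟨by simp [k, z], fun x =>
    (r1 x).mono fun g hg => by
      simp only [mκ, k, iκ, z, mul_comm g.κ, mul_smul, hg]
      exact inv_smul_eq_iff.2 rfl, by simp [k, z]⟩
  have z2 : f z = 1 := by
    by_cases e : r = 1
    · rw [show z = 1 from ex (by simp [z, k]) rfl (by simp [z, k, e]), map_one]
    have hV (w : C × C) : f (ι w) = 1 := by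
      obtain ⟨u1, h1⟩ := cD (sub_ne_zero.2 e) w.1
      obtain ⟨u2, h2⟩ := cD (sub_ne_zero.2 e) w.2
      have h0 : Tendsto (fun g => f (g * ι (u1, u2) * g⁻¹ * (ι (u1, u2))⁻¹)) 𝒰 (𝓝 1) := by
        simpa using ((h.mul_const (f (ι (u1, u2)))).mul h.inv).mul_const (f (ι (u1, u2)))⁻¹
      obtain ⟨g, h3, h4, h5⟩ := ((h0.eventually (lemS f w)).and ((r1 u1).and (r1 u2))).exists
      refine h3 _ (by simp [ι]) rfl (congrArg (fun w => f (ι w)) ?_)
      ext <;> simp [ι, h4, h5, ← h1, ← h2, sub_smul] <;> abel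
    have (g : G) : f (k g.κ g.hκ) = f g := by
      symm
      simpa [hV, mul_inv_eq_one] using
        killA f hV (g := g * (k g.κ g.hκ)⁻¹ * (ι g.v)⁻¹) (by simp [k, ι])
    exact inv_eq_one.1 (tendsto_nhds_unique (by simpa [this, comp_def] using h.mul_const (f z)⁻¹)
      (hf.comp z1))
  have b1 : Tendsto (fun g : G => f (g * (k g.κ g.hκ)⁻¹)) 𝒰 (𝓝 1) := by
    simpa [comp_def, z2] using h.mul (hf.comp z1).inv
  have b2 : ∀ᶠ g : G in 𝒰, f (ι g.v) = 1 := (b1.eventually (lemV f hf)).mono fun g hg => by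
    simpa [k] using hg _ (by simp [k]) rfl
  obtain ⟨y, y1, y2⟩ := lemA f hf 𝒰 (α := fun g => g * (k g.κ g.hκ)⁻¹ * (ι g.v)⁻¹)
    (fun g => by simp [k, ι]) (b1.congr' (b2.mono fun g hg => by simp [hg])) F
  filter_upwards [b2, y2, z1 ⟨F, subset_rfl⟩] with g h1 h2 (h3 : _ ∈ Nb F)
  have := hF (a := (g * (k g.κ g.hκ)⁻¹ * (ι g.v)⁻¹ * y) * (k g.κ g.hκ * z⁻¹))
    ⟨by rw [mv, h2.1, h3.1]; simp, fun p hp => ⟨by rw [mκ, mul_smul, (h3.2 p hp).1, (h2.2 p hp).1],
      by rw [ma, (h3.2 p hp).1, (h3.2 p hp).2, h3.1, map_zero, add_zero, (h2.2 p hp).2, add_zero]⟩⟩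
  simpa [h1, y1, z2] using this

end Pool.Agent.H.MP_a4feb0_gt.C
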